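import Pool.Agent.BEW.StmtsD

set_option autoImplicit false

/-!
# Squad BEW, row LIF: a bound in the maximum norm
-/

namespace Pool.Agent.BEW.H72

open Pool.Agent.BEW Finset

private theorem tail_sum (N : ℕ) (hN : 1 ≤ N) (M : ℕ) (hM : N ≤ M) :
    ∑ k ∈ Finset.Ico N M, 4 / ((k : ℝ) + 1) ^ 2 ≤ 4 / (N : ℝ) - 4 / (M : ℝ) := by
  induction M, hM using Nat.le_induction with
  | base => simp
  | succ m hm ih =>
    rw [Finset.sum_Ico_succ_top hm]
    have hm0 : (0 : ℝ) < m := by exact_mod_cast (lt_of_lt_of_le hN hm)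
    have h1 : 4 / ((m : ℝ) + 1) ^ 2 ≤ 4 / (m : ℝ) - 4 / ((m : ℝ) + 1) := by
      rw [div_sub_div _ _ hm0.ne' (by positivity), div_le_div_iff₀ (by positivity) (by positivity)]
      nlinarith [mul_pos hm0 hm0]
    push_cast
    linarith

/-- **LIF**. -/
theorem lif : LifStmt := by
  intro X b om B M N c f s x hb hom hN hf hs hc hoc
  have hB : 0 ≤ B := le_trans (abs_nonneg _) (hb 0 x)
  have hN0 : (0 : ℝ) < N := by exact_mod_cast hN
  have hsN : 0 < Real.sqrt N := Real.sqrt_pos.2 hN0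
  -- reduce to the sum of the absolute values
  have h1 : |∑ k ∈ Finset.Ico 1 M, c k * b k x| ≤ B * ∑ k ∈ Finset.Ico 1 M, |c k| := by
    calc |∑ k ∈ Finset.Ico 1 M, c k * b k x| ≤ ∑ k ∈ Finset.Ico 1 M, |c k * b k x| :=
          Finset.abs_sum_le_sum_abs _ _
      _ ≤ ∑ k ∈ Finset.Ico 1 M, B * |c k| := by
          refine Finset.sum_le_sum fun k _ => ?_
          rw [abs_mul, mul_comm B]
          exact mul_le_mul_of_nonneg_left (hb k x) (abs_nonneg _)
      _ = B * ∑ k ∈ Finset.Ico 1 M, |c k| := by rw [Finset.mul_sum]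
  refine le_trans h1 (mul_le_mul_of_nonneg_left ?_ hB)
  rw [← Finset.sum_filter_add_sum_filter_not (Finset.Ico 1 M) (fun k => k < N)]
  refine add_le_add ?_ ?_
  · -- low modes
    have h2 := sq_sum_le_card_mul_sum_sq (s := (Finset.Ico 1 M).filter (fun k => k < N))
      (f := fun k => |c k|)
    have h3 : (((Finset.Ico 1 M).filter (fun k => k < N)).card : ℝ) ≤ N := by
      have : (Finset.Ico 1 M).filter (fun k => k < N) ⊆ Finset.range N := by
        intro k hk
        rw [Finset.mem_filter] at hk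
        exact Finset.mem_range.2 hk.2
      have h := Finset.card_le_card this
      rw [Finset.card_range] at h
      exact_mod_cast h
    have h4 : ∑ k ∈ (Finset.Ico 1 M).filter (fun k => k < N), |c k| ^ 2 ≤ f ^ 2 := by
      refine le_trans ?_ hc
      rw [show ∑ k ∈ (Finset.Ico 1 M).filter (fun k => k < N), |c k| ^ 2 =
        ∑ k ∈ (Finset.Ico 1 M).filter (fun k => k < N), c k ^ 2 from
          Finset.sum_congr rfl fun k _ => sq_abs _]
      exact Finset.sum_le_sum_of_subset_of_nonneg (Finset.filter_subset _ _)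
        (fun k _ _ => sq_nonneg _)
    have h5 : (∑ k ∈ (Finset.Ico 1 M).filter (fun k => k < N), |c k|) ^ 2 ≤
        (Real.sqrt N * f) ^ 2 := by
      rw [mul_pow, Real.sq_sqrt hN0.le]
      refine le_trans h2 (mul_le_mul h3 h4 (Finset.sum_nonneg fun k _ => sq_nonneg _) hN0.le)
    exact abs_le_of_sq_le_sq' h5 (mul_nonneg hsN.le hf) |>.2
  · -- high modes
    set S := (Finset.Ico 1 M).filter (fun k => ¬ k < N) with hS
    have hpos : ∀ k : ℕ, 0 < om k := fun k => lt_of_lt_of_le (by positivity) (hom k)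
    have h2 := Finset.sum_mul_sq_le_sq_mul_sq S (fun k => (om k)⁻¹) (fun k => om k * |c k|)
    have h3 : ∑ k ∈ S, (om k)⁻¹ * (om k * |c k|) = ∑ k ∈ S, |c k| := by
      refine Finset.sum_congr rfl fun k _ => ?_
      rw [← mul_assoc, inv_mul_cancel₀ (hpos k).ne', one_mul]
    rw [h3] at h2
    have h4 : ∑ k ∈ S, (om k * |c k|) ^ 2 ≤ s ^ 2 := by
      refine le_trans ?_ hoc
      rw [show ∑ k ∈ S, (om k * |c k|) ^ 2 = ∑ k ∈ S, (om k * c k) ^ 2 from
          Finset.sum_congr rfl fun k _ => by rw [mul_pow, mul_pow, sq_abs]]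
      exact Finset.sum_le_sum_of_subset_of_nonneg (Finset.filter_subset _ _)
        (fun k _ _ => sq_nonneg _)
    have h5 : ∑ k ∈ S, ((om k)⁻¹) ^ 2 ≤ 4 / (N : ℝ) := by
      have hterm : ∀ k : ℕ, ((om k)⁻¹) ^ 2 ≤ 4 / ((k : ℝ) + 1) ^ 2 := by
        intro k
        have hk : (0 : ℝ) < (k : ℝ) + 1 := by positivity
        have h6 : (om k)⁻¹ ≤ 2 / ((k : ℝ) + 1) := by
          rw [inv_le_comm₀ (hpos k) (by positivity), inv_div]
          exact hom k
        have h7 : 0 ≤ (om k)⁻¹ := (inv_pos.2 (hpos k)).le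
        calc ((om k)⁻¹) ^ 2 ≤ (2 / ((k : ℝ) + 1)) ^ 2 := pow_le_pow_left₀ h7 h6 2
          _ = 4 / ((k : ℝ) + 1) ^ 2 := by rw [div_pow]; norm_num
      rcases le_total N M with hNM | hNM
      · have hsub : S ⊆ Finset.Ico N M := by
          intro k hk
          rw [hS, Finset.mem_filter, Finset.mem_Ico] at hk
          exact Finset.mem_Ico.2 ⟨not_lt.1 hk.2, hk.1.2⟩
        calc ∑ k ∈ S, ((om k)⁻¹) ^ 2 ≤ ∑ k ∈ S, 4 / ((k : ℝ) + 1) ^ 2 :=
              Finset.sum_le_sum fun k _ => hterm k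
          _ ≤ ∑ k ∈ Finset.Ico N M, 4 / ((k : ℝ) + 1) ^ 2 :=
              Finset.sum_le_sum_of_subset_of_nonneg hsub (fun k _ _ => by positivity)
          _ ≤ 4 / (N : ℝ) - 4 / (M : ℝ) := tail_sum N hN M hNM
          _ ≤ 4 / (N : ℝ) := by
              have : (0 : ℝ) ≤ 4 / (M : ℝ) := by positivity
              linarith
      · have hemp : S = ∅ := by
          rw [hS, Finset.filter_eq_empty_iff]
          intro k hk
          rw [Finset.mem_Ico] at hk
          rw [not_not]
          omega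
        rw [hemp, Finset.sum_empty]
        positivity
    have h6 : (∑ k ∈ S, |c k|) ^ 2 ≤ (2 / Real.sqrt N * s) ^ 2 := by
      have e : (2 / Real.sqrt N * s) ^ 2 = 4 / (N : ℝ) * s ^ 2 := by
        rw [mul_pow, div_pow, Real.sq_sqrt hN0.le]
        norm_num
      rw [e]
      exact le_trans h2 (mul_le_mul h5 h4 (Finset.sum_nonneg fun k _ => sq_nonneg _)
        (by positivity))
    exact abs_le_of_sq_le_sq' h6 (by positivity) |>.2

end Pool.Agent.BEW.H72
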